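import Pool.Agent.MNT.StmtsT

/-!
# Row LPA of the squad MNT: parents in a laminar family
-/

set_option autoImplicit false

namespace Pool.Agent.MNT.H24

open Pool.Agent.MNT

/-- **LPA**. -/
theorem lpa : LpaStmt := by
  intro P _ _ Λ c hc hcu
  have h2 := Λ.two_le c hc
  have hne : c.Nonempty := Finset.card_pos.1 (by omega)
  have hS : (Λ.V.filter (fun d => c ⊂ d)).Nonempty := by
    refine ⟨Finset.univ, Finset.mem_filter.2 ⟨Λ.top_mem, ?_⟩⟩
    exact (Finset.ssubset_univ_iff).2 hcu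
  obtain ⟨d, hd, hmin⟩ := Finset.exists_min_image _ Finset.card hS
  rw [Finset.mem_filter] at hd
  refine ⟨d, hd.1, hd.2, fun d' hd' hcd' => ?_⟩
  have h3 := hmin d' (Finset.mem_filter.2 ⟨hd', hcd'⟩)
  rcases Λ.lam d hd.1 d' hd' with h | h | h
  · exact h
  · exact (Finset.eq_of_subset_of_card_le h h3).symm.subset
  · obtain ⟨x, hx⟩ := hne
    exact absurd (hcd'.1 hx) (Finset.disjoint_left.1 h (hd.2.1 hx))

end Pool.Agent.MNT.H24
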